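import Pool.Agent.H57.HNon4

set_option autoImplicit false

namespace Pool.Agent.Results.MP_eebbd0_lc.NonEq

open MeasureTheory Cardinal

/-- The uniformity number of a family `I` of subsets: the least cardinality of a set not in `I`. -/
noncomputable def non {E : Type} (I : Set (Set E)) : Cardinal.{0} :=
  sInf {c | ∃ X : Set E, X ∉ I ∧ #X = c}

/-- The ideal of `H^t`-null subsets of Euclidean `n`-space. -/
def nullIdeal (n : ℕ) (t : ℝ) : Set (Set (EuclideanSpace ℝ (Fin n))) := {A | μH[t] A = 0}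

theorem univ_not_null (n : ℕ) (s : ℝ) (h0 : 0 < s) (hs : s < n) :
    μH[s] (Set.univ : Set (EuclideanSpace ℝ (Fin n))) ≠ 0 := by
  lift s to NNReal using h0.le
  have h : (s : ENNReal) < dimH (Set.univ : Set (EuclideanSpace ℝ (Fin n))) := by
    rw [Real.dimH_univ_eq_finrank, finrank_euclideanSpace_fin]
    have : s < (n : NNReal) := by exact_mod_cast hs
    exact_mod_cast this
  rw [hausdorffMeasure_of_lt_dimH h]
  exact ENNReal.top_ne_zero

theorem result (n : ℕ) (r s : ℝ) (hr : 0 < r) (hrs : r < s) (hs : s < n) :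
    Set.univ ∉ nullIdeal n s ∧ non (nullIdeal n r) = non (nullIdeal n s) := by
  have hs0 : 0 < s := hr.trans hrs
  refine ⟨univ_not_null n s hs0 hs, le_antisymm ?_ ?_⟩
  · refine csInf_le_csInf' ⟨_, Set.univ, univ_not_null n s hs0 hs, rfl⟩ ?_
    rintro c ⟨X, hX, rfl⟩
    refine ⟨X, fun h => hX ?_, rfl⟩
    exact le_antisymm ((Measure.hausdorffMeasure_mono hrs.le X).trans (le_of_eq h)) bot_le
  · obtain ⟨X, hX, hc⟩ := csInf_mem (s := {c | ∃ X : Set (EuclideanSpace ℝ (Fin n)),
      X ∉ nullIdeal n r ∧ #X = c}) ⟨_, Set.univ, univ_not_null n r hr (hrs.trans hs), rfl⟩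
    obtain ⟨F, hF⟩ := Pool.Agent.H57.HNon.main (n := n) r s hr hs0 hs
    have hinf : X.Infinite := by
      intro hfin
      haveI := Measure.noAtoms_hausdorff (EuclideanSpace ℝ (Fin n)) hr
      exact hX (hfin.measure_zero _)
    have h1 : #(Set.image2 F X X) ≤ #X := by
      refine Cardinal.mk_image2_le.trans (le_of_eq ?_)
      exact Cardinal.mul_eq_self (Cardinal.infinite_iff.1 hinf.to_subtype)
    have h2 : non (nullIdeal n s) ≤ #(Set.image2 F X X) := csInf_le' ⟨_, hF X hX, rfl⟩
    exact h2.trans (h1.trans (le_of_eq hc))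

end Pool.Agent.Results.MP_eebbd0_lc.NonEq
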